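import Pool.Agent.R701.CutQ
import Pool.Agent.R701.CutUnits

/-!
# MP_ac4bd0_al: embedding solvable `{2,3,5,7}`-groups into solvable cut groups
-/

namespace Pool.Agent.Results.MP_ac4bd0_al.CutEmbed

universe u

/-- `G` is a cut group: every central unit of the integral group ring `ℤG` is trivial, that is,
`Z(U(ℤG)) = ± Z(G)`. -/
def IsCutGroup (G : Type u) [Group G] : Prop :=
  ∀ u ∈ Subgroup.center (MonoidAlgebra ℤ G)ˣ, ∃ g ∈ Subgroup.center G,
    (u : MonoidAlgebra ℤ G) = MonoidAlgebra.single g 1 ∨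
      (u : MonoidAlgebra ℤ G) = - MonoidAlgebra.single g 1

open Pool.Agent.R701.CutWr Pool.Agent.R701.CutUnits

lemma isCut_of_conj {G : Type u} [Group G] [Finite G]
    (h : ∀ x : G, ∀ m : ℕ, (Nat.card G).Coprime m → IsConj (x ^ m) x ∨ IsConj (x ^ m) x⁻¹) :
    IsCutGroup G := by
  intro u hu
  apply central_units_trivial h u
  intro g
  have h1 := Subgroup.mem_center_iff.mp hu
    (Units.map (MonoidAlgebra.of ℤ G) (toUnits g))
  have h2 := congrArg (fun z : (MonoidAlgebra ℤ G)ˣ => (z : MonoidAlgebra ℤ G)) h1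
  exact h2

lemma res4 : ∀ a b u v : ZMod 4, u * a + v * b = 1 → ∃ t, a + b * t = 1 ∨ a + b * t = -1 := by
  decide +kernel

lemma res6 : ∀ a b u v : ZMod 6, u * a + v * b = 1 → ∃ t, a + b * t = 1 ∨ a + b * t = -1 := by
  decide +kernel

lemma isCut_of_CD {D : ℕ} [NeZero D]
    (hD : ∀ a b u v : ZMod D, u * a + v * b = 1 → ∃ t, a + b * t = 1 ∨ a + b * t = -1)
    {G : Type u} [Group G] [Finite G] (h : CD D G) : IsCutGroup G := by
  apply isCut_of_conj
  intro x m hm
  set n := Nat.card G with hn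
  have hcop : IsCoprime (m : ℤ) (n : ℤ) := by
    rw [Nat.isCoprime_iff_coprime]; exact hm.symm
  obtain ⟨u, v, huv⟩ := id hcop
  obtain ⟨t, ht⟩ := hD (m : ZMod D) (n : ZMod D) (u : ZMod D) (v : ZMod D) (by
    have := congrArg (Int.cast : ℤ → ZMod D) huv
    push_cast at this
    exact this)
  set j : ℤ := m + n * (t.val : ℤ) with hj
  have hjD : ((j : ℤ) : ZMod D) = (m : ZMod D) + (n : ZMod D) * t := by
    rw [hj]; push_cast
    rw [ZMod.natCast_zmod_val]
  have hjc : IsCoprime j (n : ℤ) := by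
    rw [hj]; exact hcop.add_mul_left_left _
  have hxn : x ^ (n : ℤ) = 1 := by
    rw [zpow_natCast, hn]; exact pow_card_eq_one'
  have hxj : x ^ j = x ^ m := by
    rw [hj, zpow_add, zpow_mul, hxn, one_zpow, mul_one, zpow_natCast]
  rcases ht with ht | ht
  · left
    have h1 : j ≡ 1 [ZMOD (D : ℤ)] := by
      rw [← ZMod.intCast_eq_intCast_iff, hjD, ht, Int.cast_one]
    have h2 := h x j hjc h1
    rwa [hxj] at h2
  · right
    have h1 : -j ≡ 1 [ZMOD (D : ℤ)] := by
      rw [← ZMod.intCast_eq_intCast_iff, Int.cast_neg, hjD, ht, Int.cast_one, neg_neg]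
    have h2 := h x (-j) hjc.neg_left h1
    rw [zpow_neg, hxj] at h2
    obtain ⟨c, hc⟩ := isConj_iff.mp h2
    rw [isConj_iff]
    refine ⟨c, ?_⟩
    calc c * x ^ m * c⁻¹ = (c * (x ^ m)⁻¹ * c⁻¹)⁻¹ := by group
      _ = x⁻¹ := by rw [hc]

lemma cut_of_emb {D : ℕ} [NeZero D]
    (hD : ∀ a b u v : ZMod D, u * a + v * b = 1 → ∃ t, a + b * t = 1 ∨ a + b * t = -1)
    {G : Type u} [Group G] (h : Emb D G) :
    ∃ (H : Type) (_ : Group H), Finite H ∧ Group.IsSolvable H ∧ IsCutGroup H ∧
      ∃ f : G →* H, Function.Injective f := by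
  obtain ⟨H, _, hfin, hsol, hCD, f, hf⟩ := h
  exact ⟨H, inferInstance, hfin, hsol, isCut_of_CD hD hCD, f, hf⟩

/-- Every finite solvable `{2,3,5,7}`-group `G` which is a `{2,3,5}`-group, or which has a normal
elementary abelian Sylow `5`-subgroup (possibly trivial), embeds into a finite solvable cut
group. -/
theorem result (G : Type u) [Group G] [Finite G] [Group.IsSolvable G]
    (hπ : ∀ p : ℕ, p.Prime → p ∣ Nat.card G → p = 2 ∨ p = 3 ∨ p = 5 ∨ p = 7)
    (h : ¬ 7 ∣ Nat.card G ∨ ∃ N : Subgroup G, N.Normal ∧ (∀ x ∈ N, ∀ y ∈ N, x * y = y * x) ∧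
      (∀ x ∈ N, x ^ 5 = 1) ∧ ¬ 5 ∣ N.index) :
    ∃ (H : Type) (_ : Group H), Finite H ∧ Group.IsSolvable H ∧ IsCutGroup H ∧
      ∃ f : G →* H, Function.Injective f := by
  rcases h with h7 | ⟨N, hN, hcomm, h5, hidx⟩
  · apply cut_of_emb (D := 4) res4
    apply emb_over (D := 4) _ G (⊥ : Subgroup G) rfl
    · intro p hp hpd
      have hpd' : p ∣ Nat.card G := by rwa [Subgroup.index_bot] at hpd
      rcases hπ p hp hpd' with rfl | rfl | rfl | rfl
      · norm_num
      · norm_num
      · norm_num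
      · exact absurd hpd' h7
    · refine ⟨Unit, inferInstance, inferInstance, inferInstance, ?_, 1, ?_⟩
      · intro x j _ _
        rw [Subsingleton.elim (x ^ j) x]
        exact IsConj.refl _
      · intro x y _
        exact Subsingleton.elim _ _
  · apply cut_of_emb (D := 6) res6
    apply emb_over (D := 6) _ G N rfl
    · intro p hp hpd
      have hpd' : p ∣ Nat.card G := hpd.trans (Subgroup.index_dvd_card N)
      rcases hπ p hp hpd' with rfl | rfl | rfl | rfl
      · norm_num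
      · norm_num
      · exact absurd hpd hidx
      · norm_num
    · apply emb_elem
      · intro x y
        exact Subtype.ext (hcomm x x.2 y y.2)
      · intro x
        exact Subtype.ext (h5 x x.2)

end Pool.Agent.Results.MP_ac4bd0_al.CutEmbed
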